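import Mathlib
import Pool.Agent.H906R3.CY.PF
import Pool.Agent.Helper781.Fusion.PF

/-!
# MP_e10d7f_nt: the Perron-Frobenius degree of the largest root of `t³ + 3t² - 15t - 46` is four

The matrix `!![0, 1, 0, 0; 12, 0, 1, 0; 1, 0, 0, 6; 1, 0, 2, 0]` is primitive, its characteristic
polynomial is `(t - 3)(t³ + 3t² - 15t - 46)`, and it has a positive eigenvector for the largest root.
A smaller matrix would have characteristic polynomial `t³ + 3t² - 15t - 46` and negative trace.
-/

set_option autoImplicit false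

open Polynomial

namespace Pool.Agent.Results.MP_e10d7f_nt.DegreeFour

/-- The set of all `n` such that some `n × n` primitive matrix with nonnegative integer entries has
spectral radius `lam`. (`Matrix.IsPrimitive` says that the entries are nonnegative and that
some power `A ^ k`, `k > 0`, has only positive entries.) -/
def realizingSizes (lam : ℝ) : Set ℕ :=
  {n | ∃ A : Matrix (Fin n) (Fin n) ℤ, A.IsPrimitive ∧
    spectralRadius ℂ (A.map (Int.cast : ℤ → ℂ)) = ENNReal.ofReal lam}

/-! ### The spectral radius is the eigenvalue of a positive eigenvector -/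

lemma mem_spectrum_real {n : ℕ} (A : Matrix (Fin n) (Fin n) ℝ) (v : Fin n → ℝ) (L : ℝ)
    (hv : ∃ i, v i ≠ 0) (h : A.mulVec v = L • v) :
    (L : ℂ) ∈ spectrum ℂ (A.map (fun x : ℝ => (x : ℂ))) := by
  rw [← Matrix.spectrum_toLin', ← Module.End.hasEigenvalue_iff_mem_spectrum]
  apply Module.End.hasEigenvalue_of_hasEigenvector (x := fun i => (v i : ℂ))
  refine ⟨?_, ?_⟩
  · rw [Module.End.mem_eigenspace_iff, Matrix.toLin'_apply]
    funext i
    have := congrFun h i
    simp only [Matrix.mulVec, dotProduct, Pi.smul_apply, smul_eq_mul, Matrix.map_apply] at this ⊢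
    exact_mod_cast this
  · obtain ⟨i, hi⟩ := hv
    intro h0
    apply hi
    have := congrFun h0 i
    simpa using this

lemma coe_nnnorm_eq (z : ℂ) : (‖z‖₊ : ENNReal) = ENNReal.ofReal ‖z‖ := by
  rw [ENNReal.ofReal, Real.toNNReal_of_nonneg (norm_nonneg _)]
  rfl

lemma spectralRadius_eq {n : ℕ} (A : Matrix (Fin n) (Fin n) ℝ) (hA : ∀ i j, 0 ≤ A i j)
    (hn : Nonempty (Fin n)) (v : Fin n → ℝ) (L : ℝ)
    (hv : ∀ i, 0 < v i) (h : A.mulVec v = L • v) :
    spectralRadius ℂ (A.map (fun x : ℝ => (x : ℂ))) = ENNReal.ofReal L := by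
  obtain ⟨i0⟩ := hn
  apply le_antisymm
  · unfold spectralRadius
    refine iSup₂_le ?_
    intro z hz
    have h1 := Pool.Agent.Helper781.Fusion.pf_bound A hA v hv L h z hz
    rw [coe_nnnorm_eq]
    exact ENNReal.ofReal_le_ofReal h1
  · have h1 := mem_spectrum_real A v L ⟨i0, (hv i0).ne'⟩ h
    have h2 := le_iSup₂ (f := fun (k : ℂ) (_ : k ∈ spectrum ℂ (A.map (fun x : ℝ => (x : ℂ)))) =>
      (‖k‖₊ : ENNReal)) (L : ℂ) h1
    refine le_trans ?_ h2
    rw [coe_nnnorm_eq]
    apply ENNReal.ofReal_le_ofReal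
    rw [Complex.norm_real, Real.norm_eq_abs]
    exact le_abs_self L

/-! ### The polynomial -/

/-- `t³ + 3t² - 15t - 46` -/
noncomputable def f : ℤ[X] := X ^ 3 + C 3 * X ^ 2 + C (-15) * X + C (-46)

lemma f_natDegree : f.natDegree = 3 := by
  unfold f; compute_degree!

lemma f_monic : f.Monic := by
  unfold f; monicity!

instance : Fact (Nat.Prime 5) := ⟨by norm_num⟩

lemma f_irreducible : Irreducible f := by
  apply Monic.irreducible_of_irreducible_map (Int.castRingHom (ZMod 5)) f f_monic
  have hdeg : (f.map (Int.castRingHom (ZMod 5))).natDegree = 3 := by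
    rw [f_monic.natDegree_map, f_natDegree]
  apply irreducible_of_degree_le_three_of_not_isRoot
  · rw [hdeg]; decide
  · intro x
    rw [IsRoot.def, eval_map]
    unfold f
    simp only [eval₂_add, eval₂_mul, eval₂_X_pow, eval₂_X, eval₂_C]
    revert x
    decide

lemma dvd_of_root (P : ℤ[X]) (x : ℝ) (hx : aeval x f = 0) (hP : aeval x P = 0) : f ∣ P := by
  have hi : IsIntegral ℤ x := ⟨f, f_monic, by rwa [← aeval_def]⟩
  have h1 : minpoly ℤ x ∣ f := minpoly.isIntegrallyClosed_dvd hi hx
  have h2 : minpoly ℤ x ∣ P := minpoly.isIntegrallyClosed_dvd hi hP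
  have h3 : Associated (minpoly ℤ x) f := by
    refine (f_irreducible.dvd_iff.mp h1).resolve_left ?_ |>.symm
    exact minpoly.not_isUnit ℤ x
  exact h3.symm.dvd.trans h2

lemma aeval_f (x : ℝ) : aeval x f = x ^ 3 + 3 * x ^ 2 - 15 * x - 46 := by
  unfold f
  simp only [map_add, map_mul, map_pow, aeval_X, aeval_C]
  simp
  ring

/-- there is no primitive nonnegative integral matrix of order at most three with spectral radius
a positive root of `f` -/
lemma lower (lam : ℝ) (hpos : 0 < lam) (hroot : lam ^ 3 + 3 * lam ^ 2 - 15 * lam - 46 = 0)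
    (n : ℕ) (A : Matrix (Fin n) (Fin n) ℤ) (hA : A.IsPrimitive)
    (hsr : spectralRadius ℂ (A.map (Int.cast : ℤ → ℂ)) = ENNReal.ofReal lam) : 4 ≤ n := by
  by_contra hcon
  have hn3 : n ≤ 3 := by omega
  have hne : Nonempty (Fin n) := by
    rcases Nat.eq_zero_or_pos n with rfl | h
    · exfalso
      have h0 : spectralRadius ℂ (A.map (Int.cast : ℤ → ℂ)) = 0 := by
        unfold spectralRadius
        have : spectrum ℂ (A.map (Int.cast : ℤ → ℂ)) = ∅ := spectrum.of_subsingleton _
        rw [this]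
        simp
      rw [h0] at hsr
      have := (ENNReal.ofReal_eq_zero.mp hsr.symm)
      linarith
    · exact ⟨⟨0, h⟩⟩
  set B : Matrix (Fin n) (Fin n) ℝ := A.map (Int.cast : ℤ → ℝ) with hB
  have hB0 : ∀ i j, 0 ≤ B i j := by
    intro i j
    rw [hB, Matrix.map_apply]
    exact_mod_cast hA.nonneg i j
  have hBpow : ∀ k : ℕ, B ^ k = (A ^ k).map (Int.cast : ℤ → ℝ) := by
    intro k
    rw [hB]
    exact (Matrix.map_pow A (Int.castRingHom ℝ) k).symm
  have hApow : ∀ k : ℕ, ∀ i j, 0 ≤ (A ^ k) i j := fun k i j => Matrix.pow_apply_nonneg hA.nonneg k i j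
  obtain ⟨k, hk, hkpos⟩ := hA.exists_pos_pow
  have h1 : ∀ i j, 0 < (∑ l ∈ Finset.range (k + 1), B ^ l) i j := by
    intro i j
    rw [Matrix.sum_apply]
    apply Finset.sum_pos'
    · intro l _
      rw [hBpow, Matrix.map_apply]
      exact_mod_cast hApow l i j
    · refine ⟨k, by simp, ?_⟩
      rw [hBpow, Matrix.map_apply]
      exact_mod_cast hkpos i j
  have h2 : ∃ i j, 0 < B i j := by
    by_contra hc
    push Not at hc
    have hB00 : A = 0 := by
      ext i j
      have e1 := hc i j
      have e2 := hA.nonneg i j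
      rw [hB, Matrix.map_apply] at e1
      have e3 : A i j ≤ 0 := by exact_mod_cast e1
      simp only [Matrix.zero_apply]
      omega
    obtain ⟨i⟩ := hne
    have := hkpos i i
    rw [hB00, zero_pow (by omega)] at this
    simp at this
  obtain ⟨v, L, hv, -, hL, hBv, -⟩ := H906C.perron B hB0 (k + 1) h1 h2
  have h3 := spectralRadius_eq B hB0 hne v L hv hBv
  have hmap : B.map (fun x : ℝ => (x : ℂ)) = A.map (Int.cast : ℤ → ℂ) := by
    ext i j
    simp [hB]
  rw [hmap, hsr] at h3
  have hLlam : lam = L := by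
    have := (ENNReal.ofReal_eq_ofReal_iff hpos.le hL.le).mp h3
    exact this
  -- `lam` is a root of the characteristic polynomial
  have hchar : aeval lam A.charpoly = 0 := by
    have e1 : B.charpoly.IsRoot L := by
      rw [← Matrix.mem_spectrum_iff_isRoot_charpoly, ← Matrix.spectrum_toLin',
        ← Module.End.hasEigenvalue_iff_mem_spectrum]
      apply Module.End.hasEigenvalue_of_hasEigenvector (x := v)
      refine ⟨?_, ?_⟩
      · rw [Module.End.mem_eigenspace_iff, Matrix.toLin'_apply, hBv]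
      · obtain ⟨i⟩ := hne
        intro h0
        have := hv i
        rw [h0] at this
        simp at this
    have e2 : B.charpoly = A.charpoly.map (Int.castRingHom ℝ) := by
      rw [hB]
      exact Matrix.charpoly_map A (Int.castRingHom ℝ)
    rw [IsRoot.def, e2, eval_map, ← hLlam] at e1
    rw [aeval_def]
    exact e1
  have hf0 : aeval lam f = 0 := by rw [aeval_f, hroot]
  have hdvd := dvd_of_root _ lam hf0 hchar
  have hmon : A.charpoly.Monic := Matrix.charpoly_monic A
  have hnat : A.charpoly.natDegree = n := by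
    rw [Matrix.charpoly_natDegree_eq_dim, Fintype.card_fin]
  have hle := natDegree_le_of_dvd hdvd hmon.ne_zero
  rw [f_natDegree, hnat] at hle
  have hn : n = 3 := le_antisymm hn3 hle
  have heq : A.charpoly = f :=
    eq_of_monic_of_dvd_of_natDegree_le f_monic hmon hdvd (by rw [hnat, f_natDegree, hn])
  have htr := Matrix.trace_eq_neg_charpoly_coeff A
  rw [heq, Fintype.card_fin] at htr
  have hn1 : n - 1 = 2 := by omega
  rw [hn1] at htr
  have hcoeff : f.coeff 2 = 3 := by
    unfold f
    simp [coeff_X, coeff_C]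
  rw [hcoeff] at htr
  have htr0 : 0 ≤ A.trace := Finset.sum_nonneg (fun i _ => hA.nonneg i i)
  omega

/-- the matrix of order four -/
def M : Matrix (Fin 4) (Fin 4) ℤ := !![0, 1, 0, 0; 12, 0, 1, 0; 1, 0, 0, 6; 1, 0, 2, 0]

lemma M_primitive : M.IsPrimitive := by
  refine ⟨?_, 6, by norm_num, ?_⟩
  · intro i j
    fin_cases i <;> fin_cases j <;> simp [M]
  · have h2 : M ^ 2 = !![12, 0, 1, 0; 1, 12, 0, 6; 6, 1, 12, 0; 2, 1, 0, 12] := by
      rw [pow_two]; decide
    have h4 : M ^ 4 = !![150, 1, 24, 0; 36, 150, 1, 144; 145, 24, 150, 6; 49, 24, 2, 150] := by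
      rw [show M ^ 4 = (M ^ 2) ^ 2 from by rw [← pow_mul], h2, pow_two]; decide
    rw [show M ^ 6 = M ^ 4 * M ^ 2 from by rw [← pow_add], h2, h4]
    decide

lemma upper (lam : ℝ) (h12 : 12 < lam ^ 2) (hpos : 0 < lam)
    (hroot : lam ^ 3 + 3 * lam ^ 2 - 15 * lam - 46 = 0) :
    spectralRadius ℂ (M.map (Int.cast : ℤ → ℂ)) = ENNReal.ofReal lam := by
  have hmap : (M.map (Int.cast : ℤ → ℝ)).map (fun x : ℝ => (x : ℂ)) = M.map (Int.cast : ℤ → ℂ) := by
    ext i j
    simp
  rw [← hmap]
  apply spectralRadius_eq _ _ ⟨0⟩ ![lam, lam ^ 2, lam * (lam ^ 2 - 12), 2 * lam ^ 2 - 23] lam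
  · intro i
    fin_cases i
    · simpa using hpos
    · simp; positivity
    · simp; exact mul_pos hpos (by linarith)
    · simp; linarith
  · funext i
    fin_cases i
    · simp [Matrix.mulVec, dotProduct, M, Fin.sum_univ_four]; ring
    · simp [Matrix.mulVec, dotProduct, M, Fin.sum_univ_four]; ring
    · simp [Matrix.mulVec, dotProduct, M, Fin.sum_univ_four]
      linear_combination (-(lam - 3)) * hroot
    · simp [Matrix.mulVec, dotProduct, M, Fin.sum_univ_four]; ring
  · intro i j
    rw [Matrix.map_apply]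
    exact_mod_cast M_primitive.nonneg i j

/-- The polynomial `t³ + 3t² - 15t - 46` has a largest real root, and the Perron-Frobenius degree of
this root is `4`: the least `n` such that it is the spectral radius of a primitive `n × n` matrix with
nonnegative integer entries. -/
theorem result : ∃ lam : ℝ, IsGreatest {x : ℝ | x ^ 3 + 3 * x ^ 2 - 15 * x - 46 = 0} lam ∧
    IsLeast (realizingSizes lam) 4 := by
  -- the largest root
  have hcont : Continuous (fun x : ℝ => x ^ 3 + 3 * x ^ 2 - 15 * x - 46) := by fun_prop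
  obtain ⟨r, ⟨hr1, hr2⟩, hr⟩ : (0 : ℝ) ∈ (fun x : ℝ => x ^ 3 + 3 * x ^ 2 - 15 * x - 46) ''
      Set.Icc (7 / 2) 4 := by
    apply intermediate_value_Icc (by norm_num) hcont.continuousOn
    constructor <;> norm_num
  simp only at hr
  have hgreat : IsGreatest {x : ℝ | x ^ 3 + 3 * x ^ 2 - 15 * x - 46 = 0} r := by
    refine ⟨hr, ?_⟩
    intro x hx
    rw [Set.mem_ofPred_eq] at hx
    by_contra hcon
    push Not at hcon
    have h1 : (x - r) * (x ^ 2 + x * r + r ^ 2 + 3 * (x + r) - 15) = 0 := by
      linear_combination hx - hr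
    rcases mul_eq_zero.mp h1 with h | h
    · linarith
    · nlinarith
  refine ⟨r, hgreat, ?_, ?_⟩
  · exact ⟨M, M_primitive, upper r (by nlinarith) (by linarith) hr⟩
  · rintro n ⟨A, hA, hsr⟩
    exact lower r (by linarith) hr n A hA hsr

end Pool.Agent.Results.MP_e10d7f_nt.DegreeFour
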